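import Pool.Agent.Q191.HMBasic

/-!
# A contractive idempotent onto a ternary subspace without a blockwise extension

`B = ℓ^∞`, `E = ℓ^∞ ⊕ c₀` with the inner product of `ℓ^∞ ⊕ ℓ^∞`, `F = 0 ⊕ c₀` and
`P (x, y) = (0, y)`. There is not even any blockwise conditional expectation of the reduced linking
algebra of `E` onto that of `F`, because there is none of `B_E = ℓ^∞` onto `C_F = c₀`.
-/

set_option autoImplicit false

open Pool.Agent.Q191.HM HilbMod Filter Topology BoundedContinuousFunction

namespace Pool.Agent.Results.MP_035205_an.ContractiveNotExtendable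

/-- `P` is a contractive linear idempotent of `E` onto the closed ternary subspace `F`. -/
structure IsContractiveIdem (B : Type) {E : Type} [NonUnitalCStarAlgebra B]
    [NormedAddCommGroup E] [NormedSpace ℂ E] [HilbMod B E] (F : Submodule ℂ E) (P : Op E) :
    Prop where
  isTernary : IsTernary B F
  mem : ∀ x, ap P x ∈ F
  idem : ∀ x ∈ F, ap P x = x
  contractive : ∀ x, ‖ap P x‖ ≤ ‖x‖

/-- `ℂ²` with its Hilbert space norm -/
abbrev V : Type := EuclideanSpace ℂ (Fin 2)

/-- `ℓ^∞` -/
abbrev A : Type := ℕ →ᵇ ℂ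

/-- the module `ℓ^∞ ⊕ c₀` -/
noncomputable def E0 : Submodule ℂ (ℕ →ᵇ V) where
  carrier := {f | Tendsto (fun n => f n 1) atTop (𝓝 0)}
  add_mem' {f g} hf hg := by
    have := Tendsto.add hf hg
    rw [add_zero] at this
    exact this
  zero_mem' := by
    simp only [Set.mem_setOf_eq, BoundedContinuousFunction.coe_zero, Pi.zero_apply, PiLp.zero_apply]
    exact tendsto_const_nhds
  smul_mem' c f hf := by
    have := Tendsto.const_mul c hf
    rw [mul_zero] at this
    exact this

lemma mem_E0 {f : ℕ →ᵇ V} : f ∈ E0 ↔ Tendsto (fun n => f n 1) atTop (𝓝 0) := Iff.rfl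

lemma norm_apply_le (v : V) (i : Fin 2) : ‖v i‖ ≤ ‖v‖ := PiLp.norm_apply_le v i

lemma E0_closed : IsClosed (E0 : Set (ℕ →ᵇ V)) := by
  rw [← isSeqClosed_iff_isClosed]
  intro u f hu hf
  show Tendsto (fun n => f n 1) atTop (𝓝 0)
  rw [Metric.tendsto_atTop]
  intro ε hε
  obtain ⟨k, hk⟩ := (Metric.tendsto_atTop.1 hf (ε / 2) (by positivity))
  obtain ⟨N, hN⟩ := (Metric.tendsto_atTop.1 (mem_E0.1 (hu k)) (ε / 2) (by positivity))
  refine ⟨N, fun n hn => ?_⟩
  have h1 : ‖(f - u k) n 1‖ < ε / 2 := by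
    refine lt_of_le_of_lt ((norm_apply_le _ _).trans ((f - u k).norm_coe_le_norm n)) ?_
    have := hk k le_rfl
    rw [dist_eq_norm, norm_sub_rev] at this
    exact this
  have h2 := hN n hn
  rw [dist_eq_norm, sub_zero] at h2 ⊢
  calc ‖f n 1‖ = ‖(f - u k) n 1 + u k n 1‖ := by simp
    _ ≤ ‖(f - u k) n 1‖ + ‖u k n 1‖ := norm_add_le _ _
    _ < ε := by linarith

/-- the module `ℓ^∞ ⊕ c₀`, as a type -/
def M : Type := E0

noncomputable instance : NormedAddCommGroup M := inferInstanceAs (NormedAddCommGroup E0)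
noncomputable instance : NormedSpace ℂ M := inferInstanceAs (NormedSpace ℂ E0)
instance : CompleteSpace M := E0_closed.completeSpace_coe

/-- the underlying function -/
def fn (x : M) : ℕ →ᵇ V := x.1

/-- an element of `M` from a function -/
def mkM (f : ℕ →ᵇ V) (hf : f ∈ E0) : M := ⟨f, hf⟩

lemma fn_mkM (f : ℕ →ᵇ V) (hf : f ∈ E0) : fn (mkM f hf) = f := rfl
lemma fn_mem (x : M) : fn x ∈ E0 := x.2
lemma fn_add (x y : M) : fn (x + y) = fn x + fn y := rfl
lemma fn_smul (c : ℂ) (x : M) : fn (c • x) = c • fn x := rfl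
lemma fn_zero : fn 0 = 0 := rfl
lemma norm_fn (x : M) : ‖fn x‖ = ‖x‖ := rfl
lemma fn_ext {x y : M} (h : ∀ n i, fn x n i = fn y n i) : x = y := by
  apply Subtype.ext
  ext n i
  exact h n i
lemma continuous_fn : Continuous fn := continuous_subtype_val

/-- pointwise inner product -/
noncomputable def inn0 (f g : ℕ →ᵇ V) : A :=
  ofNormedAddCommGroupDiscrete (fun n => inner ℂ (f n) (g n)) (‖f‖ * ‖g‖) fun n =>
    (norm_inner_le_norm _ _).trans (mul_le_mul (f.norm_coe_le_norm n) (g.norm_coe_le_norm n)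
      (norm_nonneg _) (norm_nonneg _))

lemma inn0_apply (f g : ℕ →ᵇ V) (n : ℕ) : inn0 f g n = inner ℂ (f n) (g n) := rfl

/-- pointwise action -/
noncomputable def act0 (f : ℕ →ᵇ V) (b : A) : ℕ →ᵇ V :=
  ofNormedAddCommGroupDiscrete (fun n => b n • f n) (‖b‖ * ‖f‖) fun n => by
    rw [norm_smul]
    exact mul_le_mul (b.norm_coe_le_norm n) (f.norm_coe_le_norm n)
      (norm_nonneg _) (norm_nonneg _)

lemma act0_apply (f : ℕ →ᵇ V) (b : A) (n : ℕ) : act0 f b n = b n • f n := rfl

lemma act0_mem {f : ℕ →ᵇ V} (hf : f ∈ E0) (b : A) : act0 f b ∈ E0 := by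
  rw [mem_E0] at hf ⊢
  have : Tendsto (fun n => ‖b‖ * ‖f n 1‖) atTop (𝓝 0) := by
    have := (hf.norm).const_mul ‖b‖
    simpa using this
  refine squeeze_zero_norm (fun n => ?_) this
  rw [act0_apply, PiLp.smul_apply, norm_smul]
  exact mul_le_mul_of_nonneg_right (b.norm_coe_le_norm n) (norm_nonneg _)

lemma norm_sq_inn0 (f : ℕ →ᵇ V) : ‖f‖ ^ 2 = ‖inn0 f f‖ := by
  apply le_antisymm
  · have : ‖f‖ ≤ √ ‖inn0 f f‖ := by
      refine (BoundedContinuousFunction.norm_le (Real.sqrt_nonneg _)).2 fun n => ?_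
      apply Real.le_sqrt_of_sq_le
      refine le_trans (le_of_eq ?_) ((inn0 f f).norm_coe_le_norm n)
      rw [inn0_apply, inner_self_eq_norm_sq_to_K]
      simp
    calc ‖f‖ ^ 2 ≤ (√ ‖inn0 f f‖) ^ 2 := pow_le_pow_left₀ (norm_nonneg _) this 2
      _ = _ := Real.sq_sqrt (norm_nonneg _)
  · refine (BoundedContinuousFunction.norm_le (by positivity)).2 fun n => ?_
    rw [inn0_apply, sq]
    exact (norm_inner_le_norm _ _).trans (mul_le_mul (f.norm_coe_le_norm n)
      (f.norm_coe_le_norm n) (norm_nonneg _) (norm_nonneg _))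

noncomputable instance : HilbMod A M where
  act x b := mkM (act0 (fn x) b) (act0_mem (fn_mem x) b)
  inn x y := inn0 (fn x) (fn y)
  add_act x y b := by
    apply fn_ext
    intro n i
    simp [fn_mkM, fn_add, act0_apply]
  smul_act c x b := by
    apply fn_ext
    intro n i
    simp [fn_mkM, fn_smul, act0_apply, mul_left_comm]
  act_add x a b := by
    apply fn_ext
    intro n i
    simp [fn_mkM, fn_add, act0_apply, add_mul]
  act_smul c x b := by
    apply fn_ext
    intro n i
    simp [fn_mkM, fn_smul, act0_apply, mul_assoc]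
  act_mul x a b := by
    apply fn_ext
    intro n i
    simp [fn_mkM, act0_apply, mul_left_comm, mul_assoc]
  inn_add x y z := by
    ext n
    simp [inn0_apply, fn_add, inner_add_right]
  inn_smul c x y := by
    ext n
    simp [inn0_apply, fn_smul, inner_smul_right]
  inn_act x y b := by
    ext n
    simp only [inn0_apply, fn_mkM, act0_apply, BoundedContinuousFunction.mul_apply,
      inner_smul_right]
    ring
  star_inn x y := by
    ext n
    simp only [BoundedContinuousFunction.star_apply, inn0_apply]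
    exact inner_conj_symm _ _
  inn_self x := by
    refine ⟨ofNormedAddCommGroupDiscrete (fun n => (‖fn x n‖ : ℂ)) ‖fn x‖ fun n => by
      simpa using (fn x).norm_coe_le_norm n, ?_⟩
    ext n
    simp only [inn0_apply, BoundedContinuousFunction.mul_apply,
      BoundedContinuousFunction.star_apply]
    rw [inner_self_eq_norm_sq_to_K]
    show ((‖fn x n‖ : ℝ) : ℂ) ^ 2 = star ((‖fn x n‖ : ℝ) : ℂ) * ((‖fn x n‖ : ℝ) : ℂ)
    rw [Complex.star_def, Complex.conj_ofReal, sq]
  norm_sq x := norm_sq_inn0 (fn x)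

lemma act_apply (x : M) (b : A) (n : ℕ) : fn (act x b) n = b n • fn x n := rfl
lemma inn_apply (x y : M) (n : ℕ) : (inn x y : A) n = inner ℂ (fn x n) (fn y n) := rfl

/-- the subspace `0 ⊕ c₀` -/
noncomputable def F : Submodule ℂ M where
  carrier := {f | ∀ n, fn f n 0 = 0}
  add_mem' {f g} hf hg := fun n => by
    have h1 := hf n
    have h2 := hg n
    simp [fn_add, h1, h2]
  zero_mem' := fun n => by simp [fn_zero]
  smul_mem' c f hf := fun n => by
    have h1 := hf n
    simp [fn_smul, h1]

lemma mem_F {f : M} : f ∈ F ↔ ∀ n, fn f n 0 = 0 := Iff.rfl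

/-- `(x, y) ↦ (0, y)` on `ℂ²` -/
noncomputable def pr (v : V) : V := WithLp.toLp 2 ![0, v 1]

lemma pr_zero (v : V) : pr v 0 = 0 := rfl
lemma pr_one (v : V) : pr v 1 = v 1 := rfl

lemma norm_pr_le (v : V) : ‖pr v‖ ≤ ‖v‖ := by
  rw [EuclideanSpace.norm_eq, EuclideanSpace.norm_eq]
  apply Real.sqrt_le_sqrt
  simp only [Fin.sum_univ_two, pr_zero, pr_one]
  simp

/-- `(x, y) ↦ (0, y)` on functions -/
noncomputable def prf (f : ℕ →ᵇ V) : ℕ →ᵇ V :=
  ofNormedAddCommGroupDiscrete (fun n => pr (f n)) ‖f‖ fun n =>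
    (norm_pr_le _).trans (f.norm_coe_le_norm n)

lemma prf_apply (f : ℕ →ᵇ V) (n : ℕ) : prf f n = pr (f n) := rfl

lemma norm_prf_le (f : ℕ →ᵇ V) : ‖prf f‖ ≤ ‖f‖ :=
  (BoundedContinuousFunction.norm_le (norm_nonneg _)).2 fun n =>
    (norm_pr_le _).trans (f.norm_coe_le_norm n)

/-- `(x, y) ↦ (0, y)` on `M` -/
noncomputable def P0 (f : M) : M := mkM (prf (fn f)) (fn_mem f)

lemma fn_P0 (f : M) : fn (P0 f) = prf (fn f) := rfl

lemma norm_P0_le (f : M) : ‖P0 f‖ ≤ ‖f‖ := norm_prf_le (fn f)

/-- `(x, y) ↦ (0, y)` as a linear map on `M` -/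
noncomputable def P1 : M →ₗ[ℂ] M where
  toFun := P0
  map_add' f g := by
    apply fn_ext
    intro n i
    rw [fn_add, fn_P0, fn_P0, fn_P0, fn_add]
    fin_cases i
    · simp [prf_apply, pr_zero]
    · simp [prf_apply, pr_one]
  map_smul' c f := by
    apply fn_ext
    intro n i
    rw [RingHom.id_apply, fn_smul, fn_P0, fn_P0, fn_smul]
    fin_cases i
    · simp [prf_apply, pr_zero]
    · simp [prf_apply, pr_one]

/-- `(x, y) ↦ (0, y)` on `M` -/
noncomputable def P : Op M := P1.mkContinuous 1 (fun f => by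
  rw [one_mul]; exact norm_P0_le f)

lemma P_apply (f : M) : ap P f = P0 f := rfl

/-- the elements of `innSpan A F` tend to zero -/
lemma tendsto_of_mem_innSpan {b : A} (hb : b ∈ innSpan A F) :
    Tendsto (fun n => b n) atTop (𝓝 0) := by
  let c0 : Submodule ℂ A :=
    { carrier := {f | Tendsto (fun n => f n) atTop (𝓝 0)}
      add_mem' := fun {f g} hf hg => by
        have := Tendsto.add hf hg
        rw [add_zero] at this
        exact this
      zero_mem' := by
        simp only [Set.mem_setOf_eq, BoundedContinuousFunction.coe_zero, Pi.zero_apply]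
        exact tendsto_const_nhds
      smul_mem' := fun c f hf => by
        have := Tendsto.const_mul c hf
        rw [mul_zero] at this
        exact this }
  have hclosed : IsClosed (c0 : Set A) := by
    rw [← isSeqClosed_iff_isClosed]
    intro u f hu hf
    show Tendsto (fun n => f n) atTop (𝓝 0)
    rw [Metric.tendsto_atTop]
    intro ε hε
    obtain ⟨k, hk⟩ := (Metric.tendsto_atTop.1 hf (ε / 2) (by positivity))
    have huk : Tendsto (fun n => u k n) atTop (𝓝 0) := hu k
    obtain ⟨N, hN⟩ := (Metric.tendsto_atTop.1 huk (ε / 2) (by positivity))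
    refine ⟨N, fun n hn => ?_⟩
    have h1 : ‖(f - u k) n‖ < ε / 2 := by
      refine lt_of_le_of_lt ((f - u k).norm_coe_le_norm n) ?_
      have := hk k le_rfl
      rw [dist_eq_norm, norm_sub_rev] at this
      exact this
    have h2 := hN n hn
    rw [dist_eq_norm, sub_zero] at h2 ⊢
    calc ‖f n‖ = ‖(f - u k) n + u k n‖ := by simp
      _ ≤ ‖(f - u k) n‖ + ‖u k n‖ := norm_add_le _ _
      _ < ε := by linarith
  have hle : Submodule.span ℂ {b : A | ∃ x ∈ F, ∃ y ∈ F, b = inn x y} ≤ c0 := by
    rw [Submodule.span_le]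
    rintro b ⟨x, hx, y, hy, rfl⟩
    show Tendsto (fun n => (inn x y : A) n) atTop (𝓝 0)
    have hy1 := mem_E0.1 (fn_mem y)
    have : Tendsto (fun n => ‖fn x‖ * ‖fn y n 1‖) atTop (𝓝 0) := by
      have := (hy1.norm).const_mul ‖fn x‖
      simpa using this
    refine squeeze_zero_norm (fun n => ?_) this
    rw [inn_apply]
    have hyn : ‖fn y n‖ = ‖fn y n 1‖ := by
      rw [EuclideanSpace.norm_eq, Fin.sum_univ_two, hy n]
      simp
    rw [← hyn]
    exact (norm_inner_le_norm _ _).trans
      (mul_le_mul_of_nonneg_right ((fn x).norm_coe_le_norm n) (norm_nonneg _))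
  exact (Submodule.topologicalClosure_minimal _ hle hclosed) hb

/-- the function `e_n` in `c₀` -/
noncomputable def indic (n : ℕ) : A :=
  ofNormedAddCommGroupDiscrete (fun k => if k = n then (1 : ℂ) else 0) 1 fun k => by
    split_ifs <;> simp

lemma indic_apply (n k : ℕ) : indic n k = if k = n then (1 : ℂ) else 0 := rfl

/-- the element `(0, e_n)` of `F`, as a function -/
noncomputable def en0 (n : ℕ) : ℕ →ᵇ V :=
  ofNormedAddCommGroupDiscrete (fun k => if k = n then (EuclideanSpace.single 1 (1 : ℂ) : V) else 0)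
    1 fun k => by split_ifs <;> simp

lemma en0_apply (n k : ℕ) :
    en0 n k = if k = n then (EuclideanSpace.single 1 (1 : ℂ) : V) else 0 := rfl

/-- the element `(0, e_n)` of `F` -/
noncomputable def en (n : ℕ) : M :=
  mkM (en0 n) (by
    rw [mem_E0]
    refine tendsto_const_nhds.congr' ?_
    filter_upwards [Filter.eventually_gt_atTop n] with k hk
    rw [en0_apply, if_neg (by omega)]
    rfl)

lemma fn_en (n : ℕ) : fn (en n) = en0 n := rfl

lemma en_mem (n : ℕ) : en n ∈ F := by
  intro k
  rw [fn_en, en0_apply]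
  split_ifs <;> simp

lemma inn_en (n : ℕ) : (inn (en n) (en n) : A) = indic n := by
  ext k
  rw [inn_apply, fn_en, en0_apply, indic_apply]
  split_ifs <;> simp

/-- the element `(1, 0)` of `E`, as a function -/
noncomputable def one1 : ℕ →ᵇ V :=
  ofNormedAddCommGroupDiscrete (fun _ => (EuclideanSpace.single 0 (1 : ℂ) : V)) 1 fun k => by simp

lemma one1_apply (k : ℕ) : one1 k = (EuclideanSpace.single 0 (1 : ℂ) : V) := rfl

/-- the element `(1, 0)` of `E` -/
noncomputable def one0 : M :=
  mkM one1 (by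
    rw [mem_E0]
    refine tendsto_const_nhds.congr' ?_
    filter_upwards with k
    rw [one1_apply]
    simp)

lemma inn_one0 : (inn one0 one0 : A) = 1 := by
  ext k
  rw [inn_apply]
  show inner ℂ (EuclideanSpace.single 0 (1 : ℂ) : V) (EuclideanSpace.single 0 (1 : ℂ) : V) = 1
  simp

/-- **A contractive idempotent which does not extend.** There are a C*-algebra `B`, a Hilbert
`B`-module `E`, a closed ternary subspace `F` of `E` and a contractive linear idempotent `P` of `E`
onto `F` such that `P` is not the `(2, 1)`-corner of a blockwise conditional expectation of the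
reduced linking algebra of `E` onto that of `F`; there is not even any blockwise conditional
expectation of the reduced linking algebra of `E` onto that of `F`. -/
theorem result : ∃ (B E : Type) (_ : NonUnitalCStarAlgebra B) (_ : NormedAddCommGroup E)
    (_ : NormedSpace ℂ E) (_ : CompleteSpace E) (_ : HilbMod B E) (F : Submodule ℂ E)
    (P : Op E), IsContractiveIdem B F P ∧
      (¬ ∃ Φ, IsBlockwiseCondExp B F Φ ∧ ∀ x, Φ.x x = ap P x) ∧
      ¬ ∃ Φ, IsBlockwiseCondExp B F Φ := by
  have key : ¬ ∃ Φ, IsBlockwiseCondExp A F Φ := by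
    rintro ⟨Φ, hΦ⟩
    have hx : Φ.x 0 = 0 := by
      have := hΦ.linear.x.2 0 0 (Submodule.zero_mem _)
      simpa using this
    have hy : Φ.y 0 = 0 := by
      have := hΦ.linear.y.2 0 0 (Submodule.zero_mem _)
      simpa using this
    have hk : Φ.k 0 = 0 := by
      have := hΦ.linear.k.2 0 0 (Submodule.zero_mem _)
      simpa using this
    have happ : ∀ b, Φ.app (cornerB b : Mat A M) = cornerB (Φ.b b) := by
      intro b
      simp [Block.app, cornerB, hx, hy, hk]
    have h1mem : (1 : A) ∈ innSpan A (⊤ : Submodule ℂ M) :=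
      Submodule.le_topologicalClosure _ (Submodule.subset_span
        ⟨one0, trivial, one0, trivial, inn_one0.symm⟩)
    have hcontr : ∀ b ∈ innSpan A (⊤ : Submodule ℂ M), ‖Φ.b b‖ ≤ ‖b‖ := by
      intro b hb
      have h1 := hΦ.contractive _ (cornerB_mem hb)
      rw [happ] at h1
      have h2 := linkNorm_cornerB_le (E := M) b
      have h3 := le_linkNorm_cornerB (E := M) (Φ.b b) h1mem (by simp)
      rw [mul_one] at h3
      linarith
    have hrange : Tendsto (fun n => Φ.b 1 n) atTop (𝓝 0) := by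
      have := (hΦ.maps _ (cornerB_mem h1mem)).1
      rw [happ] at this
      exact tendsto_of_mem_innSpan this
    obtain ⟨N, hN⟩ := (Metric.tendsto_atTop.1 hrange (1 / 4) (by norm_num))
    have hNN := hN N le_rfl
    rw [dist_eq_norm, sub_zero] at hNN
    have hindmem : indic N ∈ innSpan A F :=
      Submodule.le_topologicalClosure _ (Submodule.subset_span
        ⟨en N, en_mem N, en N, en_mem N, (inn_en N).symm⟩)
    have hindmem' : indic N ∈ innSpan A (⊤ : Submodule ℂ M) :=
      Submodule.le_topologicalClosure _ (Submodule.subset_span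
        ⟨en N, trivial, en N, trivial, (inn_en N).symm⟩)
    have hfix : Φ.b (indic N) = indic N := by
      have := hΦ.idem _ (cornerB_mem hindmem)
      rw [happ] at this
      exact congrArg Mat.b this
    have hlin : Φ.b (1 + (-2 : ℂ) • indic N) = Φ.b 1 + (-2 : ℂ) • indic N := by
      rw [hΦ.linear.b.1 _ h1mem _ (Submodule.smul_mem _ _ hindmem'),
        hΦ.linear.b.2 _ _ hindmem', hfix]
    have hle := hcontr (1 + (-2 : ℂ) • indic N)
      (Submodule.add_mem _ h1mem (Submodule.smul_mem _ _ hindmem'))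
    rw [hlin] at hle
    have hnorm : ‖(1 + (-2 : ℂ) • indic N : A)‖ ≤ 1 := by
      refine (BoundedContinuousFunction.norm_le zero_le_one).2 fun k => ?_
      simp only [BoundedContinuousFunction.add_apply, BoundedContinuousFunction.smul_apply,
        BoundedContinuousFunction.coe_one, Pi.one_apply, indic_apply]
      split_ifs
      · norm_num
      · simp
    have hge := (Φ.b 1 + (-2 : ℂ) • indic N).norm_coe_le_norm N
    simp only [BoundedContinuousFunction.add_apply, BoundedContinuousFunction.smul_apply,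
      indic_apply, if_true, smul_eq_mul, mul_one] at hge
    have h2 : (2 : ℝ) ≤ ‖Φ.b 1 N + -2‖ + ‖Φ.b 1 N‖ := by
      calc (2 : ℝ) = ‖(Φ.b 1 N) - (Φ.b 1 N + -2)‖ := by
            rw [show (Φ.b 1 N) - (Φ.b 1 N + -2) = (2 : ℂ) by ring]; simp
        _ ≤ ‖Φ.b 1 N‖ + ‖Φ.b 1 N + -2‖ := norm_sub_le _ _
        _ = _ := add_comm _ _
    linarith
  refine ⟨A, M, inferInstance, inferInstance, inferInstance, inferInstance, inferInstance, F, P,
    ⟨⟨?_, ?_⟩, ?_, ?_, ?_⟩, ?_, key⟩
  · rw [← isSeqClosed_iff_isClosed]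
    intro u f hu hf n
    have h1 : Tendsto (fun k => fn (u k) n 0) atTop (𝓝 (fn f n 0)) := by
      have hc : Continuous fun g : M => fn g n 0 := by
        have h2 : Continuous fun g : M => fn g n :=
          (continuous_eval_const (F := ℕ →ᵇ V) n).comp continuous_fn
        exact (EuclideanSpace.proj (𝕜 := ℂ) (0 : Fin 2)).continuous.comp h2
      exact (hc.tendsto f).comp hf
    have h2 : Tendsto (fun k => fn (u k) n 0) atTop (𝓝 0) := by
      refine tendsto_const_nhds.congr fun k => ?_
      exact (hu k n).symm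
    exact tendsto_nhds_unique h1 h2
  · intro x hx y hy z hz n
    rw [act_apply, PiLp.smul_apply, hx n, smul_zero]
  · intro x n
    rw [P_apply, fn_P0, prf_apply, pr_zero]
  · intro x hx
    rw [P_apply]
    apply fn_ext
    intro n i
    rw [fn_P0, prf_apply]
    fin_cases i
    · exact (hx n).symm
    · rfl
  · exact norm_P0_le
  · rintro ⟨Φ, hΦ, -⟩
    exact key ⟨Φ, hΦ⟩

end Pool.Agent.Results.MP_035205_an.ContractiveNotExtendable
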